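import Mathlib

/-!
# Sums of structured sets of natural numbers

A numerical lemma used for trees: every branch of a rooted tree has a structured set of sizes.
-/

set_option autoImplicit false

namespace Pool.Agent.K6.H14.Sub

open Finset

/-- The set `A` of natural numbers below `s` contains `0, ..., m`, and every number below `s` is at
distance at most `m` above an element of `A`. -/
structure Str (A : ℕ → Prop) (s m M : ℕ) : Prop where
  low : ∀ x ≤ m, A x
  gap : ∀ x < s, ∃ y, A y ∧ y ≤ x ∧ x ≤ y + m
  hM : A M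
  hmM : m ≤ M
  hMs : M < s
  hsM : s ≤ M + m + 1

variable {ι : Type*} [DecidableEq ι]

lemma cover (J : Finset ι) (A : ι → ℕ → Prop) (t : ι → ℕ) (m : ℕ)
    (hA : ∀ j ∈ J, A j (t j)) (hgap : ∀ j ∈ J, ∀ x < t j, ∃ y, A j y ∧ y ≤ x ∧ x ≤ y + m) :
    ∀ x, x ≤ m + ∑ j ∈ J, t j →
      ∃ y : ι → ℕ, (∀ j ∈ J, A j (y j)) ∧ ∑ j ∈ J, y j ≤ x ∧ x ≤ ∑ j ∈ J, y j + m := by
  induction J using Finset.induction_on with
  | empty => intro x hx; exact ⟨fun _ => 0, by simp, by simp, by simpa using hx⟩
  | insert a J ha ih =>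
    intro x hx
    rw [sum_insert ha] at hx
    have hA' : ∀ j ∈ J, A j (t j) := fun j hj => hA j (mem_insert_of_mem hj)
    have hg' : ∀ j ∈ J, ∀ x < t j, ∃ y, A j y ∧ y ≤ x ∧ x ≤ y + m :=
      fun j hj => hgap j (mem_insert_of_mem hj)
    obtain ⟨z, hz1, hz2, hz3⟩ : ∃ z, A a z ∧ z ≤ x ∧ x - z ≤ m + ∑ j ∈ J, t j := by
      by_cases h : x < t a
      · obtain ⟨z, h1, h2, h3⟩ := hgap a (mem_insert_self _ _) x h
        exact ⟨z, h1, h2, by omega⟩
      · exact ⟨t a, hA a (mem_insert_self _ _), by omega, by omega⟩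
    obtain ⟨y, hy1, hy2, hy3⟩ := ih hA' hg' (x - z) hz3
    refine ⟨fun j => if j = a then z else y j, ?_, ?_, ?_⟩
    · intro j hj
      by_cases hja : j = a
      · simp [hja, hz1]
      · simp only [hja, if_false]
        exact hy1 j (by simpa [hja] using hj)
    · rw [sum_insert ha]
      have : ∑ j ∈ J, (if j = a then z else y j) = ∑ j ∈ J, y j :=
        sum_congr rfl fun j hj => by
          have : j ≠ a := fun h => ha (h ▸ hj)
          simp [this]
      simp only [this, if_true]
      omega
    · rw [sum_insert ha]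
      have : ∑ j ∈ J, (if j = a then z else y j) = ∑ j ∈ J, y j :=
        sum_congr rfl fun j hj => by
          have : j ≠ a := fun h => ha (h ▸ hj)
          simp [this]
      simp only [this, if_true]
      omega

/-- Sums where at most `k` of the terms take the full value `s i` and the others are in `A i`. -/
def Comb (C : Finset ι) (A : ι → ℕ → Prop) (s : ι → ℕ) (k : ℕ) (x : ℕ) : Prop :=
  ∃ I ⊆ C, I.card ≤ k ∧ ∃ t : ι → ℕ, (∀ i ∈ I, t i = s i) ∧ (∀ i ∈ C \ I, A i (t i)) ∧
    ∑ i ∈ C, t i = x

lemma Comb.insert_full {C : Finset ι} {A : ι → ℕ → Prop} {s : ι → ℕ} {k x : ℕ} {h : ι}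
    (hh : h ∉ C) (H : Comb C A s k x) : Comb (insert h C) A s (k + 1) (s h + x) := by
  obtain ⟨I, hI, hk, t, h1, h2, h3⟩ := H
  refine ⟨insert h I, insert_subset_insert _ hI, (card_insert_le _ _).trans (by omega),
    fun i => if i = h then s h else t i, ?_, ?_, ?_⟩
  · intro i hi
    by_cases hih : i = h
    · simp [hih]
    · simp only [hih, if_false]
      exact h1 i (by simpa [hih] using hi)
  · intro i hi
    simp only [mem_sdiff, mem_insert, not_or] at hi
    simp only [hi.2.1, if_false]
    exact h2 i (by simp only [mem_sdiff]; tauto)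
  · rw [sum_insert hh]
    have : ∑ j ∈ C, (if j = h then s h else t j) = ∑ j ∈ C, t j :=
      sum_congr rfl fun j hj => by
        have : j ≠ h := fun h' => hh (h' ▸ hj)
        simp [this]
    simp only [this, if_true]
    omega

lemma Comb.insert_part {C : Finset ι} {A : ι → ℕ → Prop} {s : ι → ℕ} {k x y : ℕ} {h : ι}
    (hh : h ∉ C) (H : Comb C A s k x) (hy : A h y) : Comb (insert h C) A s k (y + x) := by
  obtain ⟨I, hI, hk, t, h1, h2, h3⟩ := H
  refine ⟨I, hI.trans (subset_insert _ _), hk,
    fun i => if i = h then y else t i, ?_, ?_, ?_⟩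
  · intro i hi
    have : i ≠ h := fun h' => hh (h' ▸ hI hi)
    simp only [this, if_false]
    exact h1 i hi
  · intro i hi
    by_cases hih : i = h
    · simp [hih, hy]
    · simp only [hih, if_false]
      exact h2 i (by simp only [mem_sdiff, mem_insert] at hi ⊢; tauto)
  · rw [sum_insert hh]
    have : ∑ j ∈ C, (if j = h then y else t j) = ∑ j ∈ C, t j :=
      sum_congr rfl fun j hj => by
        have : j ≠ h := fun h' => hh (h' ▸ hj)
        simp [this]
    simp only [this, if_true]
    omega

lemma Comb.mono {C : Finset ι} {A : ι → ℕ → Prop} {s : ι → ℕ} {k k' x : ℕ} (hk : k ≤ k')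
    (H : Comb C A s k x) : Comb C A s k' x := by
  obtain ⟨I, hI, hk', h⟩ := H
  exact ⟨I, hI, hk'.trans hk, h⟩

/-- The key covering lemma: the branches `J` with `I ⊆ J`, and a number `m` bounding the gaps. -/
lemma comb_near (J : Finset ι) (A : ι → ℕ → Prop) (s m M : ι → ℕ)
    (hS : ∀ c ∈ J, Str (A c) (s c) (m c) (M c)) (μ : ℕ) (hμ : ∀ c ∈ J, m c ≤ μ)
    (I : Finset ι) (hI : I ⊆ J) (x : ℕ)
    (hx : x ≤ μ + (∑ i ∈ I, s i + ∑ i ∈ J \ I, M i)) :
    ∃ z, Comb J A s I.card z ∧ z ≤ x ∧ x ≤ z + μ := by
  have h0 := cover J (fun j y => A j y ∨ (j ∈ I ∧ y = s j))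
    (fun j => if j ∈ I then s j else M j) μ
    (by
      intro j hj
      by_cases h : j ∈ I
      · simp [h]
      · simp only [h, if_false]; exact Or.inl (hS j hj).hM)
    (by
      intro j hj y hy
      have hys : y < s j := by
        by_cases h : j ∈ I
        · simpa [h] using hy
        · simp only [h, if_false] at hy; exact hy.trans (hS j hj).hMs
      obtain ⟨z, h1, h2, h3⟩ := (hS j hj).gap y hys
      exact ⟨z, Or.inl h1, h2, h3.trans (by have := hμ j hj; omega)⟩) x
    (by
      have h1 : ∑ j ∈ J, (if j ∈ I then s j else M j) = ∑ i ∈ I, s i + ∑ i ∈ J \ I, M i := by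
        rw [← sum_sdiff hI, add_comm]
        congr 1
        · exact sum_congr rfl fun j hj => by simp [hj]
        · exact sum_congr rfl fun j hj => by simp [(mem_sdiff.1 hj).2]
      rw [h1]; exact hx)
  obtain ⟨y, hy1, hy2, hy3⟩ := h0
  classical
  refine ⟨∑ j ∈ J, y j, ⟨I.filter (fun i => ¬ A i (y i)), (filter_subset _ _).trans hI,
    card_filter_le _ _, y, ?_, ?_, rfl⟩, hy2, hy3⟩
  · intro i hi
    rw [mem_filter] at hi
    rcases hy1 i (hI hi.1) with h | h
    · exact absurd h hi.2
    · exact h.2
  · intro i hi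
    rw [mem_sdiff, mem_filter] at hi
    rcases hy1 i hi.1 with h | h
    · exact h
    · by_contra hc
      exact hi.2 ⟨h.1, hc⟩

lemma comb_cover (C : Finset ι) (A : ι → ℕ → Prop) (s m M : ι → ℕ)
    (hS : ∀ c ∈ C, Str (A c) (s c) (m c) (M c)) (h : ι) (hh : h ∈ C)
    (hm : ∀ c ∈ C, m c ≤ m h) (I : Finset ι) (hI : I ⊆ C.erase h) (x : ℕ)
    (hx : x ≤ m h + (∑ i ∈ I, s i + ∑ i ∈ C.erase h \ I, M i)) :
    Comb C A s I.card x := by
  obtain ⟨z, hz1, hz2, hz3⟩ := comb_near (C.erase h) A s m M
    (fun c hc => hS c (mem_of_mem_erase hc)) (m h) (fun c hc => hm c (mem_of_mem_erase hc)) I hI x hx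
  have := hz1.insert_part (h := h) (y := x - z) (notMem_erase h C)
    ((hS h hh).low _ (by omega))
  rw [insert_erase hh] at this
  rwa [show x - z + z = x by omega] at this

lemma comb_exact (J : Finset ι) (A : ι → ℕ → Prop) (s M : ι → ℕ)
    (hM : ∀ c ∈ J, A c (M c)) (I : Finset ι) (hI : I ⊆ J) :
    Comb J A s I.card (∑ i ∈ I, s i + ∑ i ∈ J \ I, M i) := by
  refine ⟨I, hI, le_rfl, fun j => if j ∈ I then s j else M j, ?_, ?_, ?_⟩
  · intro i hi; simp [hi]
  · intro i hi
    rw [mem_sdiff] at hi
    simp only [hi.2, if_false]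
    exact hM i hi.1
  · rw [← sum_sdiff hI, add_comm]
    congr 1
    · exact sum_congr rfl fun j hj => by simp [hj]
    · exact sum_congr rfl fun j hj => by simp [(mem_sdiff.1 hj).2]

lemma card_le_sum {I : Finset ι} {s : ι → ℕ} (hs : ∀ i ∈ I, 1 ≤ s i) : I.card ≤ ∑ i ∈ I, s i := by
  calc I.card = ∑ i ∈ I, 1 := by simp
    _ ≤ ∑ i ∈ I, s i := sum_le_sum hs

lemma sum_split {C : Finset ι} {h : ι} (hh : h ∈ C) {I : Finset ι} (hI : I ⊆ C.erase h)
    (f : ι → ℕ) : ∑ i ∈ C, f i = f h + (∑ i ∈ I, f i + ∑ i ∈ C.erase h \ I, f i) := by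
  rw [← add_sum_erase C f hh, ← sum_sdiff hI]
  ring

lemma str_succ (C : Finset ι) (A : ι → ℕ → Prop) (s m M : ι → ℕ)
    (hS : ∀ c ∈ C, Str (A c) (s c) (m c) (M c)) :
    ∃ m' M', Str (Comb C A s ((C.card + 1) / 2)) (1 + ∑ c ∈ C, s c) m' M' := by
  rcases C.eq_empty_or_nonempty with rfl | hne
  · refine ⟨0, 0, ?_, ?_, ?_, le_rfl, by simp, by simp⟩
    · intro x hx
      exact ⟨∅, by simp, by simp, fun _ => 0, by simp, by simp, by simp; omega⟩
    · intro x hx
      refine ⟨0, ⟨∅, by simp, by simp, fun _ => 0, by simp, by simp, by simp⟩, by omega, ?_⟩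
      simpa using hx
    · exact ⟨∅, by simp, by simp, fun _ => 0, by simp, by simp, by simp⟩
  obtain ⟨h, hh, hm⟩ := exists_max_image C m hne
  have hcard := card_erase_of_mem hh
  have hr : 1 ≤ C.card := card_pos.2 hne
  obtain hr1 | hr2 : C.card = 1 ∨ 2 ≤ C.card := by omega
  · -- a single branch
    have hC : C = {h} := by
      rw [card_eq_one] at hr1
      obtain ⟨a, ha⟩ := hr1
      rw [ha] at hh ⊢
      rw [mem_singleton.1 hh]
    subst hC
    have hSh := hS h hh
    have hemp : Comb (∅ : Finset ι) A s 0 0 :=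
      ⟨∅, by simp, by simp, fun _ => 0, by simp, by simp, by simp⟩
    have hfull : Comb {h} A s (({h} : Finset ι).card + 1 / 2) (s h) := by
      have := hemp.insert_full (h := h) (by simp)
      simpa using this
    have hpart : ∀ y, A h y → Comb {h} A s ((({h} : Finset ι).card + 1) / 2) y := by
      intro y hy
      have := (hemp.insert_part (h := h) (by simp) hy).mono (k' := (({h} : Finset ι).card + 1) / 2)
        (by simp)
      simpa using this
    have hfull' : Comb {h} A s ((({h} : Finset ι).card + 1) / 2) (s h) := by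
      have := hemp.insert_full (h := h) (by simp)
      simpa using this
    refine ⟨m h, s h, fun x hx => hpart x (hSh.low x hx), ?_, hfull', ?_, ?_, ?_⟩
    · intro x hx
      rw [sum_singleton] at hx
      by_cases hxs : x < s h
      · obtain ⟨y, h1, h2, h3⟩ := hSh.gap x hxs
        exact ⟨y, hpart y h1, h2, h3⟩
      · exact ⟨s h, hfull', by omega, by omega⟩
    · have := hSh.hmM; have := hSh.hMs; omega
    · rw [sum_singleton]; omega
    · rw [sum_singleton]; omega
  · obtain ⟨I, hI, hIc⟩ := exists_subset_card_eq (s := C.erase h) (n := (C.card + 1) / 2)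
      (by rw [hcard]; omega)
    set A' := ∑ i ∈ I, s i + ∑ i ∈ C.erase h \ I, M i with hA'
    have hSh := hS h hh
    have hx1 := comb_exact (C.erase h) A s M (fun c hc => (hS c (mem_of_mem_erase hc)).hM) I hI
    have hex : ∀ y, A h y → Comb C A s ((C.card + 1) / 2) (y + A') := by
      intro y hy
      have := hx1.insert_part (h := h) (notMem_erase h C) hy
      rwa [insert_erase hh, hIc] at this
    have hIs : I.card ≤ ∑ i ∈ I, s i := card_le_sum fun i hi => by
      have := (hS i (mem_of_mem_erase (hI hi))).hMs; omega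
    have hrest : ∑ i ∈ C.erase h \ I, s i ≤
        2 * ∑ i ∈ C.erase h \ I, M i + (C.erase h \ I).card := by
      rw [mul_sum]
      have : (C.erase h \ I).card = ∑ i ∈ C.erase h \ I, 1 := by simp
      rw [this, ← sum_add_distrib]
      refine sum_le_sum fun i hi => ?_
      have h1 := hS i (mem_of_mem_erase (mem_sdiff.1 hi).1)
      have := h1.hsM; have := h1.hmM
      omega
    have hrc : (C.erase h \ I).card = C.card - 1 - (C.card + 1) / 2 := by
      rw [card_sdiff_of_subset hI, hcard, hIc]
    have hrM : ∑ i ∈ C.erase h \ I, M i ≤ ∑ i ∈ C.erase h \ I, s i := sum_le_sum fun i hi => by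
      have := (hS i (mem_of_mem_erase (mem_sdiff.1 hi).1)).hMs; omega
    have hsum := sum_split hh hI s
    have h1 := hSh.hsM
    have h2 := hSh.hmM
    have h3 := hSh.hMs
    refine ⟨m h + A', M h + A', ?_, ?_, hex _ hSh.hM, by omega, by omega, by omega⟩
    · intro x hx
      have := comb_cover C A s m M hS h hh hm I hI x hx
      rwa [hIc] at this
    · intro x hx
      by_cases hxm : x ≤ m h + A'
      · have := comb_cover C A s m M hS h hh hm I hI x hxm
        rw [hIc] at this
        exact ⟨x, this, le_rfl, by omega⟩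
      · by_cases hxs : x - A' < s h
        · obtain ⟨y, hy1, hy2, hy3⟩ := hSh.gap _ hxs
          exact ⟨y + A', hex y hy1, by omega, by omega⟩
        · exact ⟨M h + A', hex _ hSh.hM, by omega, by omega⟩

lemma root_cover (C : Finset ι) (A : ι → ℕ → Prop) (s m M : ι → ℕ)
    (hS : ∀ c ∈ C, Str (A c) (s c) (m c) (M c))
    (hs : ∀ c ∈ C, 2 * s c ≤ 1 + ∑ c ∈ C, s c) (x : ℕ) (hx : 2 * x < 1 + ∑ c ∈ C, s c) :
    Comb C A s (C.card / 2) x := by
  rcases C.eq_empty_or_nonempty with rfl | hne
  · exact ⟨∅, by simp, by simp, fun _ => 0, by simp, by simp, by simp at hx ⊢; omega⟩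
  obtain ⟨h, hh, hm⟩ := exists_max_image C m hne
  have hcard := card_erase_of_mem hh
  have hr : 1 ≤ C.card := card_pos.2 hne
  have hSh := hS h hh
  have h1 := hSh.hsM
  have h2 := hSh.hmM
  have h3 := hSh.hMs
  -- `x = 0` is trivial
  rcases Nat.eq_zero_or_pos x with rfl | hxpos
  · have := comb_cover C A s m M hS h hh hm ∅ (by simp) 0 (by omega)
    exact this.mono (by simp)
  have h2M : ∀ J : Finset ι, J ⊆ C → ∑ i ∈ J, s i ≤ 2 * ∑ i ∈ J, M i + J.card := by
    intro J hJ
    rw [mul_sum]
    have : J.card = ∑ i ∈ J, 1 := by simp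
    rw [this, ← sum_add_distrib]
    refine sum_le_sum fun i hi => ?_
    have h1 := hS i (hJ hi)
    have := h1.hsM; have := h1.hmM
    omega
  have hcs : ∀ J : Finset ι, J ⊆ C → J.card ≤ ∑ i ∈ J, s i := fun J hJ =>
    card_le_sum fun i hi => by have := (hS i (hJ hi)).hMs; omega
  by_cases hA : ∃ l ∈ C.erase h, s h ≤ s l
  · -- some other branch is at least as large
    obtain ⟨l, hl, hls⟩ := hA
    have hr2 : 2 ≤ C.card := by
      have : 1 ≤ (C.erase h).card := card_pos.2 ⟨l, hl⟩
      omega
    obtain ⟨I, hlI, hI, hIc⟩ := exists_subsuperset_card_eq (s := {l}) (t := C.erase h)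
      (n := C.card / 2) (by simpa using hl) (by simp; omega) (by rw [hcard]; omega)
    have hlI' : l ∈ I := by simpa using hlI
    have hIe : I.card - 1 ≤ ∑ i ∈ I.erase l, s i := by
      rw [← card_erase_of_mem hlI']
      exact hcs _ fun i hi => mem_of_mem_erase (hI (mem_of_mem_erase hi))
    have hIs := add_sum_erase I s hlI'
    have hsum := sum_split hh hI s
    have hrc : (C.erase h \ I).card = C.card - 1 - C.card / 2 := by
      rw [card_sdiff_of_subset hI, hcard, hIc]
    have hrest := h2M (C.erase h \ I) (sdiff_subset.trans (erase_subset _ _))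
    have := comb_cover C A s m M hS h hh hm I hI x (by omega)
    rwa [hIc] at this
  · push Not at hA
    -- `h` is strictly the largest branch
    obtain hr1 | hr2 : C.card = 1 ∨ 2 ≤ C.card := by omega
    · exfalso
      have hC : C = {h} := by
        rw [card_eq_one] at hr1
        obtain ⟨a, ha⟩ := hr1
        rw [ha] at hh ⊢
        rw [mem_singleton.1 hh]
      have := hs h hh
      rw [hC, sum_singleton] at this hx
      omega
    have hne2 : (C.erase h).Nonempty := by
      rw [← card_pos, hcard]; omega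
    obtain ⟨g, hg, hgm⟩ := exists_max_image (C.erase h) m hne2
    have hgC : g ∈ C := mem_of_mem_erase hg
    have hcard2 := card_erase_of_mem hg
    obtain hr2' | hr3 : C.card = 2 ∨ 3 ≤ C.card := by omega
    · have hI : ({g} : Finset ι) ⊆ C.erase h := by simpa using hg
      have he : C.erase h \ {g} = ∅ := by
        rw [← card_eq_zero, card_sdiff_of_subset hI, hcard]
        simp; omega
      have hsum := sum_split hh hI s
      rw [he, sum_empty, sum_singleton] at hsum
      have := hs h hh
      have := comb_cover C A s m M hS h hh hm {g} hI x (by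
        rw [he, sum_empty, sum_singleton]; omega)
      rw [hr2']
      simpa using this
    · set J := (C.erase h).erase g with hJ
      have hJC : J ⊆ C := (erase_subset _ _).trans (erase_subset _ _)
      obtain ⟨I, hI, hIc⟩ := exists_subset_card_eq (s := J) (n := C.card / 2)
        (by rw [hcard2, hcard]; omega)
      have hJIc : (J \ I).card = C.card - 2 - C.card / 2 := by
        rw [card_sdiff_of_subset hI, hcard2, hcard, hIc]; omega
      obtain ⟨I', hII', hI', hIc'⟩ := exists_subsuperset_card_eq (s := J \ I) (t := J)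
        (n := C.card / 2 - 1) sdiff_subset (by omega) (by rw [hcard2, hcard]; omega)
      have hJIc' : (J \ I').card = C.card - 1 - C.card / 2 := by
        rw [card_sdiff_of_subset hI', hcard2, hcard, hIc']; omega
      set mO := m g + (∑ i ∈ I', s i + ∑ i ∈ J \ I', M i) with hmO
      have hSg := hS g hgC
      have g1 := hSg.hsM
      have g2 := hSg.hmM
      have g3 := hSg.hMs
      have hsumJ : ∑ i ∈ C, s i = s h + (s g + ∑ i ∈ J, s i) := by
        rw [← add_sum_erase C s hh, ← add_sum_erase _ s hg]
      by_cases hB : m h ≤ mO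
      · -- use the full branch `h`
        have e1 := hcs I' (hI'.trans hJC)
        have e2 := h2M (J \ I') (sdiff_subset.trans hJC)
        have e3 : ∑ i ∈ J, s i = ∑ i ∈ I', s i + ∑ i ∈ J \ I', s i := by
          rw [← sum_sdiff hI', add_comm]
        have e4 := hA g hg
        have hkey : ∀ z ≤ mO, Comb (C.erase h) A s (C.card / 2 - 1) z := by
          intro z hz
          have := comb_cover (C.erase h) A s m M (fun c hc => hS c (mem_of_mem_erase hc)) g hg
            hgm I' hI' z hz
          rwa [hIc'] at this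
        by_cases hxs : x < s h
        · obtain ⟨y, hy1, hy2, hy3⟩ := hSh.gap x hxs
          have := ((hkey (x - y) (by omega)).insert_part (h := h) (notMem_erase h C) hy1).mono
            (k' := C.card / 2) (by omega)
          rwa [insert_erase hh, show y + (x - y) = x by omega] at this
        · have := ((hkey (x - s h) (by omega)).insert_full (h := h) (notMem_erase h C)).mono
            (k' := C.card / 2) (by omega)
          rwa [insert_erase hh, show s h + (x - s h) = x by omega] at this
      · -- use `m h`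
        have hIC : I ⊆ C.erase h := hI.trans (erase_subset _ _)
        have hgI : g ∉ I := fun hgI => by
          have := hI hgI; simp [hJ] at this
        have hd : C.erase h \ I = insert g (J \ I) := by
          ext i
          simp only [mem_sdiff, mem_insert, hJ, mem_erase]
          constructor
          · rintro ⟨⟨a1, a2⟩, a3⟩
            by_cases hig : i = g
            · exact Or.inl hig
            · exact Or.inr ⟨⟨hig, a1, a2⟩, a3⟩
          · rintro (rfl | ⟨⟨a1, a2, a3⟩, a4⟩)
            · exact ⟨mem_erase.1 hg, hgI⟩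
            · exact ⟨⟨a2, a3⟩, a4⟩
        have hgJ : g ∉ J \ I := by simp [hJ]
        have e1 : ∑ i ∈ J \ I, s i ≤ ∑ i ∈ I', s i := sum_le_sum_of_subset hII'
        have e2 : ∑ i ∈ J, s i = ∑ i ∈ I, s i + ∑ i ∈ J \ I, s i := by
          rw [← sum_sdiff hI, add_comm]
        have e3 := hs h hh
        have := comb_cover C A s m M hS h hh hm I hIC x (by
          rw [hd, sum_insert hgJ]
          omega)
        rwa [hIc] at this

end Pool.Agent.K6.H14.Sub
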