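import Mathlib
import Pool.Agent.K6.H14.SubNum

/-!
# Branches of a tree
-/

set_option autoImplicit false

namespace Pool.Agent.K6.H14.Sub

open Finset

open scoped Classical in
section

variable {V : Type*} [Fintype V] {G : SimpleGraph V}

lemma adj_dist (hG : G.IsTree) {p u : V} (h : G.Adj p u) (v : V) :
    G.dist u v + 1 = G.dist p v ∨ G.dist p v + 1 = G.dist u v := by
  have := hG.dist_eq_dist_add_one_of_adj v h
  rw [G.dist_comm (u := v) (v := p), G.dist_comm (u := v) (v := u)] at this
  omega

lemma closer_unique (hG : G.IsTree) {u v c c' : V} (h : G.Adj u c) (h' : G.Adj u c')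
    (hc : G.dist c v < G.dist u v) (hc' : G.dist c' v < G.dist u v) : c = c' := by
  obtain ⟨P, hP⟩ := hG.connected.exists_walk_length_eq_dist c v
  obtain ⟨P', hP'⟩ := hG.connected.exists_walk_length_eq_dist c' v
  have e1 := adj_dist hG h v
  have e2 := adj_dist hG h' v
  have h1 : (SimpleGraph.Walk.cons h P).IsPath :=
    SimpleGraph.Walk.isPath_of_length_eq_dist _ (by simp; omega)
  have h2 : (SimpleGraph.Walk.cons h' P').IsPath :=
    SimpleGraph.Walk.isPath_of_length_eq_dist _ (by simp; omega)
  have h3 := (hG.existsUnique_path u v).unique h1 h2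
  have h4 := congrArg SimpleGraph.Walk.snd h3
  simpa using h4

lemma exists_closer (hG : G.IsTree) {u v : V} (h : v ≠ u) :
    ∃ c, G.Adj u c ∧ G.dist c v < G.dist u v := by
  obtain ⟨P, hP⟩ := hG.connected.exists_walk_length_eq_dist u v
  cases P with
  | nil => exact absurd rfl h
  | cons hadj q =>
    refine ⟨_, hadj, ?_⟩
    have := G.dist_le q
    simp at hP
    omega

variable (G) in
/-- The branch at `u` seen from `p`. -/
noncomputable def br (p u : V) : Finset V := univ.filter fun v => G.dist u v < G.dist p v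

lemma mem_br {p u v : V} : v ∈ br G p u ↔ G.dist u v < G.dist p v := by simp [br]

lemma self_mem_br {p u : V} (h : G.Adj p u) : u ∈ br G p u := by
  rw [mem_br, SimpleGraph.dist_self, SimpleGraph.dist_eq_one_iff_adj.2 h]; omega

lemma parent_notMem_br {p u : V} : p ∉ br G p u := by
  rw [mem_br, SimpleGraph.dist_self]; omega

lemma br_cross (hG : G.IsTree) {p u v w : V} (h : G.Adj p u) (hv : v ∈ br G p u)
    (hvw : G.Adj v w) : w ∈ br G p u ∨ (v = u ∧ w = p) := by
  by_contra hcon
  push Not at hcon
  obtain ⟨hw, hne⟩ := hcon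
  rw [mem_br] at hv hw
  have a1 := adj_dist hG h v
  have a2 := adj_dist hG h w
  have a3 := adj_dist hG hvw u
  have a4 := adj_dist hG hvw p
  simp only [G.dist_comm (u := v), G.dist_comm (u := w)] at a3 a4
  by_cases hvu : v = u
  · subst hvu
    have hw1 : G.dist p w = 0 := by
      have : G.dist v v = 0 := SimpleGraph.dist_self
      omega
    exact hne rfl (hG.connected.dist_eq_zero_iff.1 hw1).symm
  · obtain ⟨x, hx1, hx2⟩ := exists_closer hG (u := v) (v := u) (fun h => hvu h.symm)
    have hx3 : G.dist p x ≤ G.dist p u + G.dist u x := hG.connected.dist_triangle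
    have hpu : G.dist p u = 1 := SimpleGraph.dist_eq_one_iff_adj.2 h
    simp only [G.dist_comm (u := v), G.dist_comm (u := x)] at hx2
    have := closer_unique hG (u := v) (v := p) (c := x) (c' := w) hx1 hvw
      (by simp only [G.dist_comm (u := v), G.dist_comm (u := x)]; omega)
      (by simp only [G.dist_comm (u := v), G.dist_comm (u := w)]; omega)
    subst this
    omega

lemma br_disjoint (hG : G.IsTree) {u c c' : V} (h : G.Adj u c) (h' : G.Adj u c') (hne : c ≠ c') :
    Disjoint (br G u c) (br G u c') := by
  rw [disjoint_left]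
  intro v hv hv'
  rw [mem_br] at hv hv'
  exact hne (closer_unique hG h h' hv hv')

lemma br_decomp (hG : G.IsTree) {p u : V} (h : G.Adj p u) :
    br G p u = insert u (((G.neighborFinset u).erase p).biUnion (br G u)) := by
  ext v
  simp only [mem_insert, mem_biUnion, mem_erase, SimpleGraph.mem_neighborFinset]
  constructor
  · intro hv
    by_cases hvu : v = u
    · exact Or.inl hvu
    · right
      obtain ⟨c, hc1, hc2⟩ := exists_closer hG hvu
      refine ⟨c, ⟨?_, hc1⟩, mem_br.2 hc2⟩
      rintro rfl
      rw [mem_br] at hv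
      omega
  · rintro (rfl | ⟨c, ⟨hcp, hc⟩, hv⟩)
    · exact self_mem_br h
    · rw [mem_br] at hv ⊢
      rcases adj_dist hG h v with h1 | h1
      · omega
      · exact absurd (closer_unique hG hc h.symm hv (by omega)) hcp

lemma root_decomp (hG : G.IsTree) (u : V) :
    (univ : Finset V) = insert u ((G.neighborFinset u).biUnion (br G u)) := by
  ext v
  simp only [mem_univ, mem_insert, mem_biUnion, SimpleGraph.mem_neighborFinset, true_iff]
  by_cases hvu : v = u
  · exact Or.inl hvu
  · obtain ⟨c, hc1, hc2⟩ := exists_closer hG hvu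
    exact Or.inr ⟨c, hc1, mem_br.2 hc2⟩

lemma root_notMem (u : V) (C : Finset V) : u ∉ C.biUnion (br G u) := by
  simp only [mem_biUnion, not_exists, not_and]
  exact fun c _ => parent_notMem_br

lemma card_biUnion_br (hG : G.IsTree) (u : V) (C : Finset V) (hC : C ⊆ G.neighborFinset u) :
    (C.biUnion (br G u)).card = ∑ c ∈ C, (br G u c).card :=
  card_biUnion fun c hc c' hc' hne =>
    br_disjoint hG (by simpa using hC hc) (by simpa using hC hc') hne

lemma card_br (hG : G.IsTree) {p u : V} (h : G.Adj p u) :
    (br G p u).card = 1 + ∑ c ∈ (G.neighborFinset u).erase p, (br G u c).card := by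
  rw [br_decomp hG h, card_insert_of_notMem (root_notMem _ _),
    card_biUnion_br hG u _ (erase_subset _ _), add_comm]

lemma card_univ_eq (hG : G.IsTree) (u : V) :
    Fintype.card V = 1 + ∑ c ∈ G.neighborFinset u, (br G u c).card := by
  rw [← card_univ, root_decomp hG u, card_insert_of_notMem (root_notMem _ _),
    card_biUnion_br hG u _ subset_rfl, add_comm]

lemma br_compl (hG : G.IsTree) {p u : V} (h : G.Adj p u) :
    (br G p u).card + (br G u p).card = Fintype.card V := by
  have : br G u p = (br G p u)ᶜ := by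
    ext v
    rw [mem_compl, mem_br, mem_br]
    have := adj_dist hG h v
    omega
  rw [this, card_add_card_compl]

/-- A centroid. -/
lemma exists_centroid (hG : G.IsTree) :
    ∃ u : V, ∀ c, G.Adj u c → 2 * (br G u c).card ≤ Fintype.card V := by
  by_contra hcon
  push Not at hcon
  let D : Finset (V × V) := univ.filter fun x => G.Adj x.1 x.2 ∧
    Fintype.card V < 2 * (br G x.1 x.2).card
  have hD : D.Nonempty := by
    obtain ⟨u⟩ := hG.connected.nonempty
    obtain ⟨c, hc1, hc2⟩ := hcon u
    exact ⟨(u, c), by simp [D, hc1, hc2]⟩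
  obtain ⟨⟨p, u⟩, hpu, hmin⟩ := exists_min_image D (fun x => (br G x.1 x.2).card) hD
  simp only [D, mem_filter, mem_univ, true_and] at hpu
  obtain ⟨c, hc1, hc2⟩ := hcon u
  by_cases hcp : c = p
  · subst hcp
    have := br_compl hG hpu.1
    omega
  · have h1 := hmin (u, c) (by simp [D, hc1, hc2])
    have h2 := card_br hG hpu.1
    have h3 : (br G u c).card ≤ ∑ c ∈ (G.neighborFinset u).erase p, (br G u c).card :=
      single_le_sum (f := fun c => (br G u c).card) (fun _ _ => Nat.zero_le _)
        (by simp [hcp, hc1])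
    simp only at h1
    omega

variable (G) in
/-- The closed neighbourhood. -/
noncomputable def nbc (v : V) : Finset V := insert v (G.neighborFinset v)

lemma card_nbc (v : V) : (nbc G v).card = G.degree v + 1 := by
  rw [nbc, card_insert_of_notMem (by simp), SimpleGraph.card_neighborFinset_eq_degree]

variable (G) in
/-- `M` is good on `B`: every vertex of `B` outside `M` has less than half of its closed
neighbourhood in `M`. -/
def GoodOn (B M : Finset V) : Prop :=
  ∀ v ∈ B, v ∉ M → 2 * (nbc G v ∩ M).card < (nbc G v).card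

variable (G) in
/-- `a` is the size of a good subset of the branch which does not contain the root. -/
def Gd (p u : V) (a : ℕ) : Prop :=
  ∃ M ⊆ br G p u, u ∉ M ∧ M.card = a ∧ GoodOn G (br G p u) M

lemma combine (hG : G.IsTree) (u : V) (C : Finset V) (hC : C ⊆ G.neighborFinset u) (k x : ℕ)
    (hk : 2 * k < G.degree u + 1)
    (H : Comb C (Gd G u) (fun c => (br G u c).card) k x) :
    ∃ M ⊆ C.biUnion (br G u), M.card = x ∧ GoodOn G (insert u (C.biUnion (br G u))) M := by
  obtain ⟨I, hI, hIk, t, ht1, ht2, ht3⟩ := H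
  have hadj : ∀ c ∈ C, G.Adj u c := fun c hc => by simpa using hC hc
  have hex : ∀ c, ∃ M : Finset V, c ∈ C → (M ⊆ br G u c ∧ (c ∈ M → c ∈ I) ∧ M.card = t c ∧
      GoodOn G (br G u c) M) := by
    intro c
    by_cases hc : c ∈ C
    · by_cases hcI : c ∈ I
      · refine ⟨br G u c, fun _ => ⟨subset_rfl, fun _ => hcI, (ht1 c hcI).symm, ?_⟩⟩
        intro v hv hv'
        exact absurd hv hv'
      · obtain ⟨M, h1, h2, h3, h4⟩ := ht2 c (mem_sdiff.2 ⟨hc, hcI⟩)
        exact ⟨M, fun _ => ⟨h1, fun h => absurd h h2, h3, h4⟩⟩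
    · exact ⟨∅, fun h => absurd h hc⟩
  choose M hM using hex
  have hdisj : ∀ c ∈ C, ∀ c' ∈ C, c ≠ c' → Disjoint (M c) (M c') := fun c hc c' hc' hne =>
    disjoint_of_subset_left (hM c hc).1
      (disjoint_of_subset_right (hM c' hc').1 (br_disjoint hG (hadj c hc) (hadj c' hc') hne))
  refine ⟨C.biUnion M, biUnion_subset.2 fun c hc => (hM c hc).1.trans
    (subset_biUnion_of_mem (br G u) hc), ?_, ?_⟩
  · rw [card_biUnion hdisj, ← ht3]
    exact sum_congr rfl fun c hc => (hM c hc).2.2.1
  · intro v hv hvM
    rw [mem_insert] at hv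
    rcases hv with rfl | hv
    · -- the vertex `u`
      have hsub : nbc G v ∩ C.biUnion M ⊆ I := by
        intro w hw
        rw [mem_inter, mem_biUnion] at hw
        obtain ⟨hw1, c, hc, hwc⟩ := hw
        have hwb := (hM c hc).1 hwc
        rw [nbc, mem_insert, SimpleGraph.mem_neighborFinset] at hw1
        rcases hw1 with rfl | hw1
        · exact absurd hwb parent_notMem_br
        · rcases br_cross hG (hadj c hc) hwb hw1.symm with h | h
          · exact absurd h parent_notMem_br
          · rw [h.1] at hwc ⊢
            exact (hM c hc).2.1 hwc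
      have := card_le_card hsub
      rw [card_nbc]
      omega
    · rw [mem_biUnion] at hv
      obtain ⟨c, hc, hvc⟩ := hv
      have hvMc : v ∉ M c := fun h => hvM (mem_biUnion.2 ⟨c, hc, h⟩)
      have hsub : nbc G v ∩ C.biUnion M ⊆ nbc G v ∩ M c := by
        intro w hw
        rw [mem_inter, mem_biUnion] at hw
        obtain ⟨hw1, c', hc', hwc⟩ := hw
        have hwb := (hM c' hc').1 hwc
        refine mem_inter.2 ⟨hw1, ?_⟩
        rw [nbc, mem_insert, SimpleGraph.mem_neighborFinset] at hw1
        rcases hw1 with rfl | hw1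
        · exact absurd (mem_biUnion.2 ⟨c', hc', hwc⟩) hvM
        · rcases br_cross hG (hadj c hc) hvc hw1 with h | h
          · have : c' = c := by
              by_contra hne
              exact disjoint_left.1 (br_disjoint hG (hadj c' hc') (hadj c hc) hne) hwb h
            rwa [← this]
          · rw [h.2] at hwb
            exact absurd hwb parent_notMem_br
      have := card_le_card hsub
      have := (hM c hc).2.2.2 v hvc hvMc
      omega

lemma Str.mono {A A' : ℕ → Prop} {s m M : ℕ} (h : Str A s m M) (hA : ∀ x, A x → A' x) :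
    Str A' s m M where
  low x hx := hA x (h.low x hx)
  gap x hx := by
    obtain ⟨y, h1, h2⟩ := h.gap x hx
    exact ⟨y, hA y h1, h2⟩
  hM := hA _ h.hM
  hmM := h.hmM
  hMs := h.hMs
  hsM := h.hsM

lemma str_br (hG : G.IsTree) : ∀ (n : ℕ) (p u : V), G.Adj p u → (br G p u).card = n →
    ∃ m M, Str (Gd G p u) n m M := by
  intro n
  induction n using Nat.strong_induction_on with
  | _ n ih =>
    intro p u hpu hn
    have hcard := card_br hG hpu
    have hc : ∀ c, ∃ m M, c ∈ (G.neighborFinset u).erase p →
        Str (Gd G u c) (br G u c).card m M := by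
      intro c
      by_cases hcC : c ∈ (G.neighborFinset u).erase p
      · have h3 : (br G u c).card ≤ ∑ c ∈ (G.neighborFinset u).erase p, (br G u c).card :=
          single_le_sum (f := fun c => (br G u c).card) (fun _ _ => Nat.zero_le _) hcC
        simp only [mem_erase, SimpleGraph.mem_neighborFinset] at hcC
        obtain ⟨m, M, h⟩ := ih (br G u c).card (by omega) u c hcC.2 rfl
        exact ⟨m, M, fun _ => h⟩
      · exact ⟨0, 0, fun h => absurd h hcC⟩
    choose m M hmM using hc
    obtain ⟨m', M', hS⟩ := str_succ ((G.neighborFinset u).erase p) (Gd G u)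
      (fun c => (br G u c).card) m M hmM
    rw [← hcard, hn] at hS
    refine ⟨m', M', hS.mono ?_⟩
    intro x hx
    have hdeg : ((G.neighborFinset u).erase p).card = G.degree u - 1 := by
      rw [card_erase_of_mem (by simpa using hpu.symm), SimpleGraph.card_neighborFinset_eq_degree]
    obtain ⟨N, h1, h2, h3⟩ := combine hG u _ (erase_subset _ _) _ x (by rw [hdeg]; omega) hx
    rw [← br_decomp hG hpu] at h3
    refine ⟨N, ?_, ?_, h2, h3⟩
    · rw [br_decomp hG hpu]
      exact h1.trans (subset_insert _ _)
    · exact fun h => root_notMem _ _ (h1 h)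

/-- In a tree with `n` vertices there is for every `x < n / 2` a set `M` of `x` vertices such that
every vertex outside `M` has less than half of its closed neighbourhood in `M`. -/
theorem tree_good (hG : G.IsTree) (x : ℕ) (hx : 2 * x < Fintype.card V) :
    ∃ M : Finset V, M.card = x ∧ ∀ v, v ∉ M → 2 * (nbc G v ∩ M).card < (nbc G v).card := by
  obtain ⟨u, hu⟩ := exists_centroid hG
  have hcard := card_univ_eq hG u
  have hc : ∀ c, ∃ m M, c ∈ G.neighborFinset u → Str (Gd G u c) (br G u c).card m M := by
    intro c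
    by_cases hcC : c ∈ G.neighborFinset u
    · obtain ⟨m, M, h⟩ := str_br hG _ u c (by simpa using hcC) rfl
      exact ⟨m, M, fun _ => h⟩
    · exact ⟨0, 0, fun h => absurd h hcC⟩
  choose m M hmM using hc
  have h1 := root_cover (G.neighborFinset u) (Gd G u) (fun c => (br G u c).card) m M hmM
    (by
      intro c hc
      rw [← hcard]
      exact hu c (by simpa using hc)) x (by rw [← hcard]; exact hx)
  obtain ⟨N, h2, h3, h4⟩ := combine hG u _ subset_rfl _ x
    (by rw [SimpleGraph.card_neighborFinset_eq_degree]; omega) h1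
  rw [← root_decomp hG u] at h4
  exact ⟨N, h3, fun v hv => h4 v (mem_univ v) hv⟩

end

end Pool.Agent.K6.H14.Sub
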