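import Mathlib
import Pool.Agent.K6.H14.SubTree

/-!
# MP_1fc697: the threshold for trees is `⌊n / 2⌋ + 1`

For a tree `T` of order `n` and every `k` with `n / 2 < k ≤ n` one has `γ_{ks}(T) ≤ 2 k - n`
(conjecture of Cockayne and Mynhardt). Since the bound fails for the star and `k = ⌊n / 2⌋`, this
determines `p_T(n) = ⌊n / 2⌋ + 1` for every `n ≥ 2`.

Idea of the proof. Root the tree at a centroid. The set `M` of the vertices with value `-1` is a
union of pairwise disjoint full branches, so all of its vertices are uncovered, and it is chosen so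
that all other vertices are covered. The set of the possible sizes of `M` inside a branch contains
an interval `{0, ..., m}` and has only gaps of length at most `m`
(`Pool.Agent.K6.H14.Sub.Str`, `str_succ`); combining the branches at the centroid gives all sizes
below `n / 2` (`root_cover`, `tree_good`).
-/

set_option autoImplicit false

namespace Pool.Agent.K6.H14.TreeThreshold

open Finset

open Classical in
/-- `f[v]`: the sum of `f` over the closed neighbourhood of `v`. -/
noncomputable def closedSum {V : Type*} [Fintype V] (G : SimpleGraph V) (f : V → ℤ) (v : V) : ℤ :=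
  ∑ u ∈ univ.filter (fun u => u = v ∨ G.Adj v u), f u

open Classical in
/-- `f` is a signed `k`-subdominating function of `G`: it has values `1`, `-1` and at least `k`
vertices `v` are covered, that is, `f[v] ≥ 1`. -/
def IsSubdominating {V : Type*} [Fintype V] (G : SimpleGraph V) (k : ℕ) (f : V → ℤ) : Prop :=
  (∀ v, f v = 1 ∨ f v = -1) ∧ k ≤ (univ.filter fun v => 1 ≤ closedSum G f v).card

/-- The signed `k`-subdomination number: the least weight of a signed `k`-subdominating
function. -/
noncomputable def gammaKs {V : Type*} [Fintype V] (G : SimpleGraph V) (k : ℕ) : ℤ :=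
  sInf {w : ℤ | ∃ f : V → ℤ, IsSubdominating G k f ∧ ∑ v, f v = w}

/-- The integers `p` such that `γ_{ks}(T) ≤ 2 k - n` for all trees `T` of order `n` and all `k` with
`1 ≤ k ≤ n` and `p ≤ k`. -/
def treeBounds (n : ℕ) : Set ℤ :=
  {p : ℤ | ∀ (V : Type) (_ : Fintype V) (T : SimpleGraph V), Fintype.card V = n → T.IsTree →
    ∀ k : ℕ, 1 ≤ k → p ≤ k → k ≤ n → gammaKs T k ≤ 2 * k - n}

/-- `p_T(n)` for the class of trees. -/
noncomputable def pTree (n : ℕ) : ℤ := sInf (treeBounds n)

section

variable {V : Type*} [Fintype V] (G : SimpleGraph V)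

lemma closedSum_def (f : V → ℤ) (v : V) [DecidablePred fun u => u = v ∨ G.Adj v u] :
    closedSum G f v = ∑ u ∈ univ.filter (fun u => u = v ∨ G.Adj v u), f u := by
  unfold closedSum
  congr!

lemma weight_ge (f : V → ℤ) (hf : ∀ v, f v = 1 ∨ f v = -1) :
    -(Fintype.card V : ℤ) ≤ ∑ v, f v := by
  have : ∑ v : V, (-1 : ℤ) ≤ ∑ v, f v :=
    Finset.sum_le_sum fun v _ => by rcases hf v with h | h <;> simp [h]
  simpa using this

lemma bddBelow (k : ℕ) :
    BddBelow {w : ℤ | ∃ f : V → ℤ, IsSubdominating G k f ∧ ∑ v, f v = w} :=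
  ⟨-(Fintype.card V : ℤ), by rintro w ⟨f, hf, rfl⟩; exact weight_ge f hf.1⟩

lemma isSub_one (k : ℕ) (hk : k ≤ Fintype.card V) :
    IsSubdominating G k fun _ => 1 := by
  classical
  refine ⟨fun _ => Or.inl rfl, ?_⟩
  have : (univ.filter fun v => 1 ≤ closedSum G (fun _ => (1 : ℤ)) v) = univ := by
    ext v
    simp only [mem_filter, mem_univ, true_and, iff_true]
    unfold closedSum
    rw [Finset.sum_const, nsmul_eq_mul, mul_one]
    have : 0 < (univ.filter fun u => u = v ∨ G.Adj v u).card :=
      Finset.card_pos.2 ⟨v, by simp⟩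
    exact_mod_cast this
  rw [this, Finset.card_univ]
  exact hk

/-- The number is attained. -/
lemma exists_attained (k : ℕ) (hk : k ≤ Fintype.card V) :
    ∃ f : V → ℤ, IsSubdominating G k f ∧ ∑ v, f v = gammaKs G k :=
  Int.csInf_mem (s := {w : ℤ | ∃ f : V → ℤ, IsSubdominating G k f ∧ ∑ v, f v = w})
    ⟨_, _, isSub_one G k hk, rfl⟩ (bddBelow G k)

end

/-- The upper bound for trees. -/
theorem tree_upper {V : Type*} [Fintype V] (G : SimpleGraph V) (hG : G.IsTree) (k : ℕ)
    (hk : k ≤ Fintype.card V) (hk2 : Fintype.card V < 2 * k) :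
    gammaKs G k ≤ 2 * k - Fintype.card V := by
  classical
  obtain ⟨M, hM, hgood⟩ := Pool.Agent.K6.H14.Sub.tree_good hG (Fintype.card V - k) (by omega)
  have hsum : ∀ S : Finset V, ∑ v ∈ S, (if v ∈ M then (-1 : ℤ) else 1) =
      S.card - 2 * (S ∩ M).card := by
    intro S
    have h1 : ∀ v ∈ S, (if v ∈ M then (-1 : ℤ) else 1) = 1 - 2 * (if v ∈ M then 1 else 0) := by
      intro v _
      by_cases h : v ∈ M <;> simp [h]
    rw [sum_congr rfl h1, sum_sub_distrib, ← mul_sum, sum_ite_mem]
    simp
  refine csInf_le (bddBelow G k) ⟨fun v => if v ∈ M then -1 else 1, ⟨?_, ?_⟩, ?_⟩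
  · intro v
    by_cases h : v ∈ M <;> simp [h]
  · have hsub : Mᶜ ⊆ univ.filter fun v => 1 ≤ closedSum G (fun v => if v ∈ M then -1 else 1) v := by
      intro v hv
      rw [mem_compl] at hv
      rw [mem_filter]
      refine ⟨mem_univ _, ?_⟩
      have h1 := hgood v hv
      have h2 : univ.filter (fun u => u = v ∨ G.Adj v u) = Pool.Agent.K6.H14.Sub.nbc G v := by
        ext u
        simp [Pool.Agent.K6.H14.Sub.nbc]
      rw [closedSum_def, h2, hsum]
      omega
    refine le_trans ?_ (card_le_card hsub)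
    rw [card_compl, hM]
    omega
  · rw [hsum, univ_inter, card_univ, hM]
    have : ((Fintype.card V - k : ℕ) : ℤ) = Fintype.card V - k := by
      rw [Nat.cast_sub hk]
    rw [this]
    ring

/-- The lower bound: the star with `n` vertices and `k = ⌊n / 2⌋`. -/
theorem star_lower (n : ℕ) (hn : 2 ≤ n) (r : Fin n) :
    2 * ((n / 2 : ℕ) : ℤ) - n < gammaKs (SimpleGraph.starGraph r) (n / 2) := by
  classical
  by_contra hcon
  push Not at hcon
  obtain ⟨f, ⟨hf, hcov⟩, hw⟩ := exists_attained (SimpleGraph.starGraph r) (n / 2)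
    (by simp; omega)
  set P : Finset (Fin n) := univ.filter fun v => f v = 1 with hP
  have hwP : ∑ v, f v = 2 * (P.card : ℤ) - n := by
    have h1 : ∀ v ∈ (univ : Finset (Fin n)), f v = 2 * (if f v = 1 then 1 else 0) - 1 := by
      intro v _
      rcases hf v with h | h <;> simp [h]
    rw [sum_congr rfl h1, sum_sub_distrib, ← mul_sum]
    simp [hP]
  have hPk : P.card ≤ n / 2 := by
    have : 2 * (P.card : ℤ) - n ≤ 2 * ((n / 2 : ℕ) : ℤ) - n := by rw [← hwP, hw]; exact hcon
    omega
  have hleaf : ∀ v, 1 ≤ closedSum (SimpleGraph.starGraph r) f v → v ≠ r ∧ f v = 1 ∧ f r = 1 := by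
    intro v hv
    rw [closedSum_def] at hv
    by_cases hvr : v = r
    · exfalso
      subst hvr
      have : univ.filter (fun u => u = v ∨ (SimpleGraph.starGraph v).Adj v u) = univ := by
        refine filter_true_of_mem fun u _ => ?_
        by_cases h : u = v
        · exact Or.inl h
        · exact Or.inr (SimpleGraph.starGraph_adj.2 ⟨fun h' => h h'.symm, Or.inl rfl⟩)
      rw [this, hw] at hv
      omega
    · have : univ.filter (fun u => u = v ∨ (SimpleGraph.starGraph r).Adj v u) = {v, r} := by
        ext u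
        simp only [mem_filter, mem_univ, true_and, SimpleGraph.starGraph_adj, mem_insert,
          mem_singleton]
        constructor
        · rintro (h | ⟨h1, h2 | h2⟩)
          · exact Or.inl h
          · exact absurd h2 hvr
          · exact Or.inr h2
        · rintro (h | h)
          · exact Or.inl h
          · exact Or.inr ⟨fun h' => hvr (h'.trans h), Or.inr h⟩
      rw [this, sum_pair hvr] at hv
      refine ⟨hvr, ?_⟩
      rcases hf v with h1 | h1 <;> rcases hf r with h2 | h2 <;> rw [h1, h2] at hv <;> simp_all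
  have hsub : (univ.filter fun v => 1 ≤ closedSum (SimpleGraph.starGraph r) f v) ⊆ P.erase r := by
    intro v hv
    rw [mem_filter] at hv
    obtain ⟨h1, h2, h3⟩ := hleaf v hv.2
    simp [hP, h1, h2]
  have h1 := card_le_card hsub
  have h2 : 1 ≤ (univ.filter fun v => 1 ≤ closedSum (SimpleGraph.starGraph r) f v).card := by
    omega
  obtain ⟨v, hv⟩ := card_pos.1 h2
  obtain ⟨_, _, h5⟩ := hleaf v (mem_filter.1 hv).2
  have h6 : r ∈ P := by simp [hP, h5]
  rw [card_erase_of_mem h6] at h1
  have h7 : 1 ≤ P.card := card_pos.2 ⟨r, h6⟩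
  omega

/-- **Main theorem.** For every `n ≥ 2`, the smallest integer `p` such that
`γ_{ks}(T) ≤ 2 k - n` for all trees `T` of order `n` and all `k` with `p ≤ k ≤ n` is
`p_T(n) = ⌊n / 2⌋ + 1`. -/
theorem result (n : ℕ) (hn : 2 ≤ n) :
    IsLeast (treeBounds n) (pTree n) ∧ pTree n = ((n / 2 : ℕ) : ℤ) + 1 := by
  have h : IsLeast (treeBounds n) (((n / 2 : ℕ) : ℤ) + 1) := by
    constructor
    · intro V _ T hV hT k _ hk hkn
      have := tree_upper T hT k (by omega) (by omega)
      rwa [hV] at this
    · intro p hp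
      by_contra hcon
      push Not at hcon
      have h1 := hp (Fin n) inferInstance (SimpleGraph.starGraph ⟨0, by omega⟩) (by simp)
        (SimpleGraph.isTree_starGraph _) (n / 2) (by omega) (by omega) (by omega)
      have h2 := star_lower n hn ⟨0, by omega⟩
      omega
  have h2 : pTree n = ((n / 2 : ℕ) : ℤ) + 1 := h.csInf_eq
  exact ⟨h2 ▸ h, h2⟩

end Pool.Agent.K6.H14.TreeThreshold
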